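import Pool.Agent.X271.TwoSpheres

/-!
# The v-number of a squarefree monomial ideal can exceed the depth

For every field `K` and `r ≥ 3` the squarefree monomial ideal
`I = (x_1⋯x_r, y_1⋯y_r, x_i y_j)` (the Stanley-Reisner ideal of two disjoint boundaries of
`(r-1)`-simplices) has `v(I) = r - 1 ≥ 2` and `depth(R/I) = 1`.
-/

namespace Pool.Agent.Results.MP_d06a13_ag.VNumberAboveDepth

open MvPolynomial Pool.Agent.X271.VNum Pool.Agent.X271.Depth Pool.Agent.X271.TwoSpheres

theorem result :
    (∀ (K : Type*) [Field K] (r : ℕ), 3 ≤ r →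
      IsSquarefreeMonomial (sphereIdeal K r) ∧ vNumber (sphereIdeal K r) = r - 1 ∧
      depth (sphereIdeal K r) = 1 ∧
      depth (sphereIdeal K r) < (vNumber (sphereIdeal K r) : ℕ∞)) := by
  intro K _ r hr
  refine ⟨sphere_squarefree (by omega), vNumber_sphere (by omega), depth_sphere (by omega), ?_⟩
  rw [depth_sphere (by omega), vNumber_sphere (by omega)]
  exact_mod_cast (by omega : 1 < r - 1)

end Pool.Agent.Results.MP_d06a13_ag.VNumberAboveDepth
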